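import Pool.Agent.Helper21.CU.St

/-!
# Project CU, module SQ
-/

set_option autoImplicit false

open Finset

namespace Pool.Agent.Helper26.CU

open Pool.Agent.Helper21.CU

theorem mem_R {k : ℤ} {s v : ℕ} : v ∈ R k s ↔ v < s ∧ (s : ℤ) ∣ (v : ℤ) ^ 3 - k := by
  simp [R]

theorem Nf_bound (k u v w s : ℤ) (hs : 0 ≤ s) (hu : |u| ^ 3 ≤ s) (hv : |v| ^ 3 ≤ s)
    (hw : |w| ^ 3 ≤ s) : |Nf k u v w| ≤ s * (1 + 4 * |k| + k ^ 2) := by
  have huvw : |u| * |v| * |w| ≤ s := by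
    have h3 : (|u| * |v| * |w|) ^ 3 ≤ s ^ 3 := by
      calc (|u| * |v| * |w|) ^ 3 = |u| ^ 3 * |v| ^ 3 * |w| ^ 3 := by ring
        _ ≤ s * s * s := by gcongr
        _ = s ^ 3 := by ring
    exact le_of_pow_le_pow_left₀ (by norm_num) hs h3
  unfold Nf
  have e1 : |u ^ 3| = |u| ^ 3 := abs_pow u 3
  have e2 : |k * v ^ 3| = |k| * |v| ^ 3 := by rw [abs_mul, abs_pow]
  have e3 : |k ^ 2 * w ^ 3| = k ^ 2 * |w| ^ 3 := by
    rw [abs_mul, abs_pow w, abs_of_nonneg (by positivity : (0 : ℤ) ≤ k ^ 2)]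
  have e4 : |3 * k * u * v * w| = 3 * |k| * (|u| * |v| * |w|) := by
    rw [abs_mul, abs_mul, abs_mul, abs_mul, abs_of_nonneg (by norm_num : (0 : ℤ) ≤ 3)]
    ring
  have t1 := abs_sub (u ^ 3 + k * v ^ 3 + k ^ 2 * w ^ 3) (3 * k * u * v * w)
  have t2 := abs_add_le (u ^ 3 + k * v ^ 3) (k ^ 2 * w ^ 3)
  have t3 := abs_add_le (u ^ 3) (k * v ^ 3)
  have b2 : |k| * |v| ^ 3 ≤ |k| * s := by gcongr
  have b3 : k ^ 2 * |w| ^ 3 ≤ k ^ 2 * s := by gcongr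
  have b4 : 3 * |k| * (|u| * |v| * |w|) ≤ 3 * |k| * s := by gcongr
  rw [e1, e2] at t3
  rw [e3] at t2
  rw [e4] at t1
  have : s * (1 + 4 * |k| + k ^ 2) = s + |k| * s + k ^ 2 * s + 3 * |k| * s := by ring
  rw [this]
  linarith

/-- the injectivity step -/
theorem inj_step (hDBL : StDBL) (k u v' w t : ℤ) (s a b : ℕ) (hs : 1 ≤ s) (hsq : Squarefree s)
    (hco : s.Coprime (3 * k.natAbs)) (ha : a ∈ R k s) (hb : b ∈ R k s)
    (hda : (s : ℤ) ∣ u + v' * a + w * a ^ 2) (hdb : (s : ℤ) ∣ u + v' * b + w * b ^ 2)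
    (hN : Nf k u v' w = s * t) (hab : a % t.natAbs = b % t.natAbs) : a = b := by
  rw [mem_R] at ha hb
  have hdvd : ∀ p : ℕ, p.Prime → p ∣ s → a ≡ b [MOD p] := by
    intro p hp hps
    by_contra hne
    have hpk : ¬ (p : ℤ) ∣ 3 * k := by
      intro hd
      have h1 : p ∣ 3 * k.natAbs := by
        have := Int.natAbs_dvd_natAbs.2 hd
        rw [Int.natAbs_mul] at this
        simpa using this
      have h2 : p ∣ Nat.gcd s (3 * k.natAbs) := Nat.dvd_gcd hps h1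
      rw [hco.gcd_eq_one] at h2
      exact hp.one_lt.ne' (Nat.dvd_one.1 h2)
    have hpsZ : (p : ℤ) ∣ (s : ℤ) := Int.natCast_dvd_natCast.2 hps
    have hmod : ∀ c : ℕ, (p : ℤ) ∣ (c : ℤ) - ((c % p : ℕ) : ℤ) := by
      intro c
      have h := Int.emod_add_mul_ediv (c : ℤ) p
      refine ⟨(c : ℤ) / p, ?_⟩
      push_cast
      linarith
    have hRR : ∀ c : ℕ, (s : ℤ) ∣ (c : ℤ) ^ 3 - k → c % p ∈ R k p := by
      intro c hc
      rw [mem_R]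
      refine ⟨Nat.mod_lt _ hp.pos, ?_⟩
      have h1 : (p : ℤ) ∣ (c : ℤ) ^ 3 - k := hpsZ.trans hc
      have h2 : (p : ℤ) ∣ (c : ℤ) ^ 3 - ((c % p : ℕ) : ℤ) ^ 3 :=
        (hmod c).trans (sub_dvd_pow_sub_pow _ _ 3)
      have h3 := dvd_sub h1 h2
      have e : (c : ℤ) ^ 3 - k - ((c : ℤ) ^ 3 - ((c % p : ℕ) : ℤ) ^ 3) = ((c % p : ℕ) : ℤ) ^ 3 - k := by ring
      rwa [e] at h3
    have hGG : ∀ c : ℕ, (s : ℤ) ∣ u + v' * c + w * c ^ 2 →
        (p : ℤ) ∣ u + v' * ((c % p : ℕ) : ℤ) + w * ((c % p : ℕ) : ℤ) ^ 2 := by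
      intro c hc
      have h1 := hpsZ.trans hc
      have h2 : (p : ℤ) ∣ v' * ((c : ℤ) - ((c % p : ℕ) : ℤ)) := (hmod c).mul_left _
      have h3 : (p : ℤ) ∣ w * ((c : ℤ) ^ 2 - ((c % p : ℕ) : ℤ) ^ 2) :=
        ((hmod c).trans (sub_dvd_pow_sub_pow _ _ 2)).mul_left _
      have h4 := dvd_sub (dvd_sub h1 h2) h3
      have e : u + v' * (c : ℤ) + w * (c : ℤ) ^ 2 - v' * ((c : ℤ) - ((c % p : ℕ) : ℤ)) -
          w * ((c : ℤ) ^ 2 - ((c % p : ℕ) : ℤ) ^ 2) =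
          u + v' * ((c % p : ℕ) : ℤ) + w * ((c % p : ℕ) : ℤ) ^ 2 := by ring
      rwa [e] at h4
    have hp2 : (p : ℤ) ^ 2 ∣ Nf k u v' w :=
      hDBL k u v' w p (a % p) (b % p) hp hpk (hRR a ha.2) (hRR b hb.2) hne (hGG a hda) (hGG b hdb)
    -- so p divides t
    have hpt : (p : ℤ) ∣ t := by
      obtain ⟨s', hs'⟩ := hps
      have hps' : ¬ p ∣ s' := by
        rintro ⟨r, hr⟩
        have : p * p ∣ s := ⟨r, by rw [hs', hr]; ring⟩
        have := hsq p this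
        exact hp.one_lt.ne' (Nat.isUnit_iff.1 this)
      rw [hN, hs', pow_two] at hp2
      push_cast at hp2
      rw [mul_assoc] at hp2
      have hp0 : (p : ℤ) ≠ 0 := by exact_mod_cast hp.ne_zero
      have h5 : (p : ℤ) ∣ (s' : ℤ) * t := (mul_dvd_mul_iff_left hp0).1 hp2
      rcases (Nat.prime_iff_prime_int.1 hp).dvd_or_dvd h5 with h | h
      · exact absurd (Int.natCast_dvd_natCast.1 h) hps'
      · exact h
    have h6 : p ∣ t.natAbs := Int.natCast_dvd.1 hpt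
    exact hne (Nat.ModEq.of_dvd h6 hab)
  have hall : (s : ℤ) ∣ (b : ℤ) - a := by
    have hprod : ∏ p ∈ s.primeFactors, p = s := Nat.prod_primeFactors_of_squarefree hsq
    have h7 : (((∏ p ∈ s.primeFactors, p : ℕ)) : ℤ) ∣ (b : ℤ) - a := by
      push_cast
      apply Finset.prod_dvd_of_coprime
      · intro p hp q hq hpq
        have hp' := Nat.prime_of_mem_primeFactors hp
        have hq' := Nat.prime_of_mem_primeFactors hq
        exact Nat.isCoprime_iff_coprime.2 ((Nat.coprime_primes hp' hq').2 hpq)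
      · intro p hp
        exact (hdvd p (Nat.prime_of_mem_primeFactors hp) (Nat.dvd_of_mem_primeFactors hp)).dvd
    rwa [hprod] at h7
  have h8 : a ≡ b [MOD s] := Nat.modEq_iff_dvd.2 hall
  exact Nat.ModEq.eq_of_lt_of_lt h8 ha.1 hb.1

theorem hSQ (hNF : StNF) (hDBL : StDBL) (hPIG : StPIG) (hCRT : StCRT) (hPP : StPP) : StSQ := by
  intro k hk
  set c : ℕ := (1 + 4 * |k| + k ^ 2).natAbs with hc
  have hcz : (c : ℤ) = 1 + 4 * |k| + k ^ 2 := by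
    rw [hc]; exact Int.natAbs_of_nonneg (by positivity)
  refine ⟨27 * (2 * c + 1) * (c + 1), by positivity, fun x => ?_⟩
  rw [← Nat.cast_sum, ← Finset.card_sigma]
  set P := ((Icc 1 x).filter (fun s : ℕ => Squarefree s ∧ s.Coprime (3 * k.natAbs))).sigma
    (fun s => R k s) with hP
  have hmemP : ∀ i ∈ P, 1 ≤ i.1 ∧ i.1 ≤ x ∧ Squarefree i.1 ∧ i.1.Coprime (3 * k.natAbs) ∧ i.2 ∈ R k i.1 := by
    intro i hi
    simp only [hP, mem_sigma, mem_filter, mem_Icc] at hi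
    exact ⟨hi.1.1.1, hi.1.1.2, hi.1.2.1, hi.1.2.2, hi.2⟩
  obtain ⟨m, hm1, hm2⟩ : ∃ m : ℕ, m ^ 3 ≤ x ∧ x < (m + 1) ^ 3 := by
    have hex : ∃ n : ℕ, x < (n + 1) ^ 3 := ⟨x, by nlinarith [sq_nonneg x]⟩
    refine ⟨Nat.find hex, ?_, Nat.find_spec hex⟩
    rcases Nat.eq_zero_or_pos (Nat.find hex) with h0 | h0
    · rw [h0]; simp
    · have := Nat.find_min hex (m := Nat.find hex - 1) (by omega)
      rw [Nat.sub_add_cancel h0] at this
      exact not_lt.1 this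
  have hbox : ∀ u : ℤ, |u| ^ 3 ≤ x → u ∈ Icc (-(m : ℤ)) m := by
    intro u hu
    rw [mem_Icc]
    have hum : |u| ≤ m := by
      by_contra hcon
      have h1 : (m : ℤ) + 1 ≤ |u| := by omega
      have h2 : ((m : ℤ) + 1) ^ 3 ≤ |u| ^ 3 := by gcongr
      have h3 : (x : ℤ) < ((m : ℤ) + 1) ^ 3 := by exact_mod_cast hm2
      omega
    exact abs_le.1 hum
  have key : ∀ i : (_ : ℕ) × ℕ, ∃ q : ℤ × ℤ × ℤ × ℤ, i ∈ P →
      (Nf k q.1 q.2.1 q.2.2.1 ≠ 0 ∧ |q.1| ^ 3 ≤ i.1 ∧ |q.2.1| ^ 3 ≤ i.1 ∧ |q.2.2.1| ^ 3 ≤ i.1 ∧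
      (i.1 : ℤ) ∣ q.1 + q.2.1 * i.2 + q.2.2.1 * i.2 ^ 2 ∧ Nf k q.1 q.2.1 q.2.2.1 = i.1 * q.2.2.2) := by
    intro i
    by_cases hi : i ∈ P
    · obtain ⟨h1, h2, h3, h4, h5⟩ := hmemP i hi
      obtain ⟨u, v', w, hne, hu, hv, hw, hd, t, ht⟩ := hPIG k i.1 i.2 h1 h5
      refine ⟨(u, v', w, t), fun _ => ⟨?_, hu, hv, hw, hd, ht⟩⟩
      intro h0
      exact hne (hNF k hk u v' w h0)
    · exact ⟨(0, 0, 0, 0), fun h => absurd h hi⟩
  choose f hf using key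
  let F : ((_ : ℕ) × ℕ) → (ℤ × ℤ × ℤ) × (ℤ × ℕ) := fun i =>
    (((f i).1, (f i).2.1, (f i).2.2.1), ((f i).2.2.2, i.2 % (f i).2.2.2.natAbs))
  have htb : ∀ i ∈ P, |(f i).2.2.2| ≤ c := by
    intro i hi
    obtain ⟨h1, h2, h3, h4, h5, h6⟩ := hf i hi
    have hs1 : (1 : ℤ) ≤ i.1 := by exact_mod_cast (hmemP i hi).1
    have hb := Nf_bound k _ _ _ (i.1 : ℤ) (by omega) h2 h3 h4
    rw [h6, abs_mul, abs_of_nonneg (by omega : (0 : ℤ) ≤ i.1), ← hcz] at hb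
    exact le_of_mul_le_mul_left hb (by omega)
  have ht0 : ∀ i ∈ P, (f i).2.2.2 ≠ 0 := by
    intro i hi h0
    obtain ⟨h1, h2, h3, h4, h5, h6⟩ := hf i hi
    rw [h0, mul_zero] at h6
    exact h1 h6
  have hcard : P.card ≤ (((Icc (-(m : ℤ)) m) ×ˢ (Icc (-(m : ℤ)) m) ×ˢ (Icc (-(m : ℤ)) m)) ×ˢ
      ((Icc (-(c : ℤ)) c) ×ˢ (range (c + 1)))).card := by
    refine Finset.card_le_card_of_injOn F ?_ ?_
    · intro i hi
      have hi' : i ∈ P := hi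
      obtain ⟨h1, h2, h3, h4, h5, h6⟩ := hf i hi'
      have hix : (i.1 : ℤ) ≤ x := by exact_mod_cast (hmemP i hi').2.1
      have ht := htb i hi'
      have ht' : (f i).2.2.2.natAbs ≤ c := by
        have : ((f i).2.2.2.natAbs : ℤ) ≤ c := by rw [Int.natCast_natAbs]; exact ht
        exact_mod_cast this
      have hpos : 0 < (f i).2.2.2.natAbs := Int.natAbs_pos.2 (ht0 i hi')
      have hlt := Nat.mod_lt i.2 hpos
      simp only [F, coe_product, Set.mem_prod, mem_coe, mem_range]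
      exact ⟨⟨hbox _ (h2.trans hix), hbox _ (h3.trans hix), hbox _ (h4.trans hix)⟩,
        mem_Icc.2 (abs_le.1 ht), by omega⟩
    · rintro ⟨s₁, v₁⟩ hi ⟨s₂, v₂⟩ hj hij
      have hi' : (⟨s₁, v₁⟩ : (_ : ℕ) × ℕ) ∈ P := hi
      have hj' : (⟨s₂, v₂⟩ : (_ : ℕ) × ℕ) ∈ P := hj
      obtain ⟨a1, a2, a3, a4, a5, a6⟩ := hf _ hi'
      obtain ⟨b1, b2, b3, b4, b5, b6⟩ := hf _ hj'
      obtain ⟨p1, p2, p3, p4, p5⟩ := hmemP _ hi'
      obtain ⟨q1, q2, q3, q4, q5⟩ := hmemP _ hj'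
      have ht := ht0 _ hi'
      simp only [F, Prod.mk.injEq] at hij
      obtain ⟨⟨e1, e2, e3⟩, e4, e5⟩ := hij
      simp only at a5 a6 b5 b6 p1 p3 p4 p5 q5
      rw [← e1, ← e2, ← e3] at b5 b6
      rw [← e4] at b6 e5
      have hs : s₁ = s₂ := by
        have : (s₁ : ℤ) * (f ⟨s₁, v₁⟩).2.2.2 = s₂ * (f ⟨s₁, v₁⟩).2.2.2 := by rw [← a6, ← b6]
        exact_mod_cast mul_right_cancel₀ ht this
      subst hs
      have hv := inj_step hDBL k _ _ _ _ s₁ v₁ v₂ p1 p3 p4 p5 q5 a5 b5 a6 e5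
      rw [hv]
  rcases Nat.eq_zero_or_pos x with hx | hx
  · have : P = ∅ := by
      apply Finset.eq_empty_of_forall_notMem
      intro i hi
      obtain ⟨h1, h2, -⟩ := hmemP i hi
      omega
    rw [this]
    simp [hx]
  · have hm : 1 ≤ m := by
      by_contra hcon
      have : m = 0 := by omega
      subst this
      simp at hm2
      omega
    have h9 : (((Icc (-(m : ℤ)) m) ×ˢ (Icc (-(m : ℤ)) m) ×ˢ (Icc (-(m : ℤ)) m)) ×ˢ
      ((Icc (-(c : ℤ)) c) ×ˢ (range (c + 1)))).card = (2 * m + 1) ^ 3 * ((2 * c + 1) * (c + 1)) := by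
      simp only [card_product, Int.card_Icc, card_range]
      have e1 : ((m : ℤ) + 1 - -(m : ℤ)).toNat = 2 * m + 1 := by omega
      have e2 : ((c : ℤ) + 1 - -(c : ℤ)).toNat = 2 * c + 1 := by omega
      rw [e1, e2]
      ring
    rw [h9] at hcard
    have h10 : (2 * m + 1) ^ 3 ≤ 27 * x := by
      calc (2 * m + 1) ^ 3 ≤ (3 * m) ^ 3 := by gcongr; omega
        _ = 27 * m ^ 3 := by ring
        _ ≤ 27 * x := by gcongr
    have h11 : P.card ≤ 27 * x * ((2 * c + 1) * (c + 1)) := hcard.trans (by gcongr)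
    have h12 : (P.card : ℝ) ≤ ((27 * x * ((2 * c + 1) * (c + 1)) : ℕ) : ℝ) := by exact_mod_cast h11
    refine h12.trans (le_of_eq ?_)
    push_cast
    ring

end Pool.Agent.Helper26.CU
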